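import Pool.Agent.Helper21.DN.Defs

set_option autoImplicit false

namespace Pool.Agent.Helper21.DN

universe u

/-! ## Block V: the valuation `ord ∘ N` -/

/-- the constants `k → k((t))` -/
noncomputable abbrev κ0 (k : Type u) [Field k] : k →+* LaurentSeries k := HahnSeries.C

/-- the structure map `k[[t]] → L` -/
noncomputable def strA (k : Type u) [Field k] (L : Type u) [Field L]
    [Algebra (LaurentSeries k) L] : PowerSeries k →+* L :=
  (algebraMap (LaurentSeries k) L).comp (HahnSeries.ofPowerSeries ℤ k)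

/-- a finite domain over a complete local ring with algebraically closed residue field is local
with the same residue field -/
def ST_VA1 : Prop := ∀ (A B : Type u) [CommRing A] [IsLocalRing A] [IsNoetherianRing A]
  [IsAdicComplete (IsLocalRing.maximalIdeal A) A] [IsAlgClosed (IsLocalRing.ResidueField A)]
  [CommRing B] [IsDomain B] [Algebra A B] [Module.Finite A B],
  IsLocalRing B ∧ ∀ b : B, ∃ a : A, ¬ IsUnit (b - algebraMap A B a)

/-- the integral closure of `k[[t]]` in `L` (as a set) is the valuation ring, every element is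
congruent to a constant modulo the non-units, and all its nonzero nonunits are divisible by a
fixed one -/
def ST_VA : Prop := ∀ (k : Type u) [Field k] [IsAlgClosed k] (L : Type u) [Field L]
  [Algebra (LaurentSeries k) L] [FiniteDimensional (LaurentSeries k) L]
  [Algebra.IsSeparable (LaurentSeries k) L],
  ∃ B : Subring L, (∀ x : L, x ∈ B ↔ (strA k L).IsIntegralElem x) ∧
    (∀ x : L, x ∈ B ∨ x⁻¹ ∈ B) ∧
    (∀ b ∈ B, ∃ c : k, b - algebraMap (LaurentSeries k) L (κ0 k c) = 0 ∨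
      (b - algebraMap (LaurentSeries k) L (κ0 k c))⁻¹ ∉ B) ∧
    (∃ ϖ ∈ B, ϖ ≠ 0 ∧ ϖ⁻¹ ∉ B ∧ ∀ x : L, x ≠ 0 → ∃ (m : ℤ) (w : L), w ∈ B ∧ w⁻¹ ∈ B ∧ w ≠ 0 ∧
      x = w * ϖ ^ m)

/-- `val` is a normalised valuation with residue field `k` -/
def ST_VAL : Prop := ∀ (k : Type u) [Field k] [IsAlgClosed k] (L : Type u) [Field L]
  [Algebra (LaurentSeries k) L] [FiniteDimensional (LaurentSeries k) L]
  [Algebra.IsSeparable (LaurentSeries k) L],
  ∃ v : AddValuation L (WithTop ℤ), (∀ x, v x = val k L x) ∧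
    TV ((algebraMap (LaurentSeries k) L).comp (κ0 k)) v

/-- the standing hypotheses hold for Galois extensions of `k((t))` -/
def ST_RAM : Prop := ∀ (k : Type u) [Field k] [IsAlgClosed k] (L : Type u) [Field L]
  [Algebra (LaurentSeries k) L] [FiniteDimensional (LaurentSeries k) L]
  [IsGalois (LaurentSeries k) L],
  ∃ v : AddValuation L (WithTop ℤ), (∀ x, v x = val k L x) ∧ Ram (κ0 k) v

/-- towers -/
def ST_TOW : Prop := ∀ (k : Type u) [Field k] (E L : Type u) [Field E] [Field L]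
  [Algebra (LaurentSeries k) E] [Algebra (LaurentSeries k) L] [Algebra E L]
  [IsScalarTower (LaurentSeries k) E L] [FiniteDimensional (LaurentSeries k) L] (x : E),
  val k L (algebraMap E L x) = Module.finrank E L • val k E x

/-- isomorphic extensions have the same conductor -/
def ST_ISO : Prop := ∀ (k : Type u) [Field k] (E L : Type u) [Field E] [Field L]
  [Algebra (LaurentSeries k) E] [Algebra (LaurentSeries k) L]
  (_ : E ≃ₐ[LaurentSeries k] L), conductor k E = conductor k L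

/-! ## Block S: the function `s` -/

/-- basic properties of `s` for one wild automorphism -/
def ST_S1 : Prop := ∀ (p : ℕ) [Fact p.Prime] (k L : Type u) [Field k] [CharP k p] [Field L]
  (κ : k →+* L) (v : AddValuation L (WithTop ℤ)), TV κ v → ∀ σ : L →+* L,
  (∀ c, σ (κ c) = κ c) → (∀ x, v (σ x) = v x) → (∃ N : ℕ, ∀ x, (⇑σ)^[p ^ N] x = x) →
  (∃ x, σ x ≠ x) →
  1 ≤ s v σ ∧ (∀ x, v x + ((s v σ : ℤ) : WithTop ℤ) ≤ v (σ x - x)) ∧
    (∀ (x : L) (m : ℤ), v x = (m : WithTop ℤ) → ¬ (p : ℤ) ∣ m →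
      v (σ x - x) = ((m + s v σ : ℤ) : WithTop ℤ))

/-- `s` is a ramification function -/
def ST_RFV : Prop := ∀ (p : ℕ) [Fact p.Prime] (k K L : Type u) [Field k] [CharP k p] [Field K]
  [Field L] [Algebra K L] [FiniteDimensional K L] [IsGalois K L] (κ : k →+* K)
  (v : AddValuation L (WithTop ℤ)), Ram κ v → IsPGroup p (L ≃ₐ[K] L) →
  RF (fun σ : L ≃ₐ[K] L => s v σ)

/-- base change of the standing hypotheses -/
def ST_BCH : Prop := ∀ (k K L : Type u) [Field k] [Field K] [Field L] [Algebra K L]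
  [FiniteDimensional K L] [IsGalois K L] (κ : k →+* K) (v : AddValuation L (WithTop ℤ)),
  Ram κ v → ∀ E : IntermediateField K L, Ram ((algebraMap K E).comp κ) v

/-- Serre, Local Fields IV, Proposition 3 -/
def ST_P3 : Prop := ∀ (p : ℕ) [Fact p.Prime] (k K L : Type u) [Field k] [CharP k p] [Field K]
  [Field L] [Algebra K L] [FiniteDimensional K L] [IsGalois K L] (κ : k →+* K)
  (v : AddValuation L (WithTop ℤ)), Ram κ v → IsPGroup p (L ≃ₐ[K] L) →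
  ∀ (E : IntermediateField K L) [Normal K E] (vE : AddValuation E (WithTop ℤ)),
  TV ((algebraMap K E).comp κ) vE → (∀ x : E, v (x : L) = Module.finrank E L • vE x) →
  ∀ σ : L ≃ₐ[K] L, σ ∉ E.fixingSubgroup →
  Module.finrank E L * s vE (σ.restrictNormal E) =
    cs (fun σ : L ≃ₐ[K] L => s v σ) E.fixingSubgroup σ

/-! ## Block C: Hasse-Arf for cyclic groups -/

/-- elements `x_m` of valuation `m` with `g x_m / x_m = g^m π / π` -/
def ST_XM : Prop := ∀ (p : ℕ) [Fact p.Prime] (k K L : Type u) [Field k] [CharP k p] [Field K]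
  [Field L] [Algebra K L] [FiniteDimensional K L] [IsGalois K L] (κ : k →+* K)
  (v : AddValuation L (WithTop ℤ)), Ram κ v → IsPGroup p (L ≃ₐ[K] L) → ∀ g : L ≃ₐ[K] L,
  ∃ x : ℕ → L, x 0 = 1 ∧ (∀ m : ℕ, v (x m) = ((m : ℤ) : WithTop ℤ)) ∧
    ∀ m : ℕ, g ^ m ≠ 1 → v (g (x m) - x m) = (((m : ℤ) + s v (⇑(g ^ m)) : ℤ) : WithTop ℤ)

/-- Euler's trace formula: an element of trace one and valuation `-S` -/
def ST_EUL : Prop := ∀ (p : ℕ) [Fact p.Prime] (k K L : Type u) [Field k] [CharP k p] [Field K]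
  [Field L] [Algebra K L] [FiniteDimensional K L] [IsGalois K L] (κ : k →+* K)
  (v : AddValuation L (WithTop ℤ)), Ram κ v → IsPGroup p (L ≃ₐ[K] L) →
  ∃ θ : L, Algebra.trace K L θ = 1 ∧
    v θ = ((-(S1 (fun σ : L ≃ₐ[K] L => s v σ) : ℤ) : ℤ) : WithTop ℤ)

/-- the determinant inequality, in the case of equality -/
def ST_DETI : Prop := ∀ (k K L : Type u) [Field k] [Field K]
  [Field L] [Algebra K L] [FiniteDimensional K L] [IsGalois K L] (κ : k →+* K)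
  (v : AddValuation L (WithTop ℤ)), Ram κ v → ∀ (n : ℕ), n = Module.finrank K L →
  ∀ (b c : Fin n → L) (m : Fin n → ℤ), (∀ j, v (b j) = (((j : ℕ) : ℤ) : WithTop ℤ)) →
  (∀ j, v (c j) = (m j : WithTop ℤ)) → ∀ A : Matrix (Fin n) (Fin n) K,
  (∀ j, c j = ∑ i, A i j • b i) → v (algebraMap K L A.det) = 0 →
  ∑ j, m j = ∑ j : Fin n, ((j : ℕ) : ℤ) → ∀ i j, (n : ℤ) ∣ m i - m j → i = j

/-- the determinant of `(θ, (g - 1) b_1, ..., (g - 1) b_{n-1})` is `± Tr θ` -/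
def ST_DETT : Prop := ∀ (p : ℕ) [Fact p.Prime] (K L : Type u) [Field K] [CharP K p] [Field L]
  [Algebra K L] [FiniteDimensional K L] [IsGalois K L] (n N : ℕ), n = Module.finrank K L →
  n = p ^ N → ∀ g : L ≃ₐ[K] L, (∀ σ : L ≃ₐ[K] L, σ ∈ Subgroup.zpowers g) →
  ∀ (hn : 0 < n) (θ : L), Algebra.trace K L θ = 1 → ∀ b : Fin n → L, LinearIndependent K b →
  b ⟨0, hn⟩ = 1 → ∀ A : Matrix (Fin n) (Fin n) K, θ = ∑ i, A i ⟨0, hn⟩ • b i →
  (∀ j : Fin n, j ≠ ⟨0, hn⟩ → g (b j) - b j = ∑ i, A i j • b i) →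
  A.det = 1 ∨ A.det = -1

/-- the integers `i + s (g^i)`, `0 < i < n`, are distinct modulo `n` -/
def ST_DIST : Prop := ∀ (p : ℕ) [Fact p.Prime] (k K L : Type u) [Field k] [CharP k p] [Field K]
  [Field L] [Algebra K L] [FiniteDimensional K L] [IsGalois K L] (κ : k →+* K)
  (v : AddValuation L (WithTop ℤ)), Ram κ v → IsPGroup p (L ≃ₐ[K] L) → ∀ g : L ≃ₐ[K] L,
  (∀ σ : L ≃ₐ[K] L, σ ∈ Subgroup.zpowers g) → ∀ (n : ℕ), n = Module.finrank K L →
  ∀ i j : ℕ, 1 ≤ i → i < n → 1 ≤ j → j < n →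
  (n : ℤ) ∣ ((i : ℤ) + s v (⇑(g ^ i))) - ((j : ℤ) + s v (⇑(g ^ j))) → i = j

/-- Hasse-Arf for cyclic `p`-groups -/
def ST_CYC : Prop := ∀ (p : ℕ) [Fact p.Prime] (k K L : Type u) [Field k] [CharP k p] [Field K]
  [Field L] [Algebra K L] [FiniteDimensional K L] [IsGalois K L] (κ : k →+* K)
  (v : AddValuation L (WithTop ℤ)), Ram κ v → IsPGroup p (L ≃ₐ[K] L) →
  IsCyclic (L ≃ₐ[K] L) → Nontrivial (L ≃ₐ[K] L) →
  Fintype.card (L ≃ₐ[K] L) ∣ S1 (fun σ : L ≃ₐ[K] L => s v σ) + x0 (fun σ : L ≃ₐ[K] L => s v σ)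

/-- `s` is a good ramification function -/
def ST_GRF : Prop := ∀ (p : ℕ) [Fact p.Prime] (k K L : Type u) [Field k] [CharP k p] [Field K]
  [Field L] [Algebra K L] [FiniteDimensional K L] [IsGalois K L] (κ : k →+* K)
  (v : AddValuation L (WithTop ℤ)), Ram κ v → IsPGroup p (L ≃ₐ[K] L) →
  GRF (fun σ : L ≃ₐ[K] L => s v σ)

/-! ## Block U: pure group theory and the upper bound -/

/-- cosets of a subgroup -/
def ST_COS : Prop := ∀ (G : Type u) [Group G] [Fintype G] (s : G → ℕ), RF s →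
  ∀ (J : Subgroup G) (g : G), g ∉ J → ∃ g0 : G, g0 ∉ J ∧ g⁻¹ * g0 ∈ J ∧
    (∀ h ∈ J, s (g0 * h) ≤ s g0) ∧ (∀ h ∈ J, h ≠ 1 → s (g0 * h) = min (s g0) (s h))

/-- divisibility of the sum outside a subgroup -/
def ST_OUT : Prop := ∀ (p : ℕ) [Fact p.Prime] (G : Type u) [Group G] [Fintype G] (s : G → ℕ),
  IsPGroup p G → GRF s → ∀ H : Subgroup G,
  Nat.card H ∣ ∑ g ∈ (Set.toFinite {g : G | g ∉ H}).toFinset, s g

/-- a central element of order `p` in the last ramification group -/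
def ST_CENT : Prop := ∀ (p : ℕ) [Fact p.Prime] (G : Type u) [Group G] [Fintype G] (s : G → ℕ),
  IsPGroup p G → Nontrivial G → RF s → ∃ z : G, z ∈ Subgroup.center G ∧ orderOf z = p ∧
    s z = x0 s

/-- a cyclic quotient of `H` detecting `z` -/
def ST_CHR : Prop := ∀ (p : ℕ) [Fact p.Prime] (G : Type u) [Group G] [Finite G],
  IsPGroup p G → ∀ (H : Subgroup G) (z : G), z ∈ H → z ∉ ⁅H, H⁆ →
  ∃ J : Subgroup G, J ≤ H ∧ z ∉ J ∧ ∃ _ : (J.subgroupOf H).Normal,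
    IsCyclic (H ⧸ J.subgroupOf H)

/-- the upper bound, group-theoretic form -/
def ST_UBG : Prop := ∀ (p : ℕ) [Fact p.Prime] (G : Type u) [Group G] [Fintype G] (s : G → ℕ),
  IsPGroup p G → Nontrivial G → GRF s → ∃ z : G, z ∈ Subgroup.center G ∧ orderOf z = p ∧
    ∀ H : Subgroup G, z ∉ ⁅H, H⁆ → Nat.card H ∣ S1 s + x0 s

/-- the conductor in terms of `s` -/
def ST_COND : Prop := ∀ (p : ℕ) [Fact p.Prime] (k : Type u) [Field k] [CharP k p]
  [IsAlgClosed k] (L : Type u) [Field L] [Algebra (LaurentSeries k) L]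
  [FiniteDimensional (LaurentSeries k) L] [IsGalois (LaurentSeries k) L]
  (v : AddValuation L (WithTop ℤ)), (∀ x, v x = val k L x) → Ram (κ0 k) v →
  IsPGroup p (L ≃ₐ[LaurentSeries k] L) → Nontrivial (L ≃ₐ[LaurentSeries k] L) →
  conductor k L = cond (fun σ : L ≃ₐ[LaurentSeries k] L => s v σ)

/-- the upper bound for the conductors -/
def ST_UB : Prop := ∀ (p : ℕ) [Fact p.Prime] (k : Type u) [Field k] [CharP k p] [IsAlgClosed k]
  (P : Type) [Group P] [Finite P], IsPGroup p P → Nontrivial P → 0 < MP p P ∧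
  ∀ c ∈ condSet k P, ∃ z : P, z ∈ Subgroup.center P ∧ orderOf z = p ∧
    (∀ H : Subgroup P, z ∉ ⁅H, H⁆ → ∃ a : ℤ, (H.index : ℝ) * c = (a : ℝ)) ∧
    ∃ a : ℤ, (MP p P : ℝ) * c = (a : ℝ)

/-- `N_P` divides `M` if all conductors lie in `(1/M) ℤ` -/
def ST_NPU : Prop := ∀ (k : Type u) [Field k] (P : Type) [Group P] (M : ℕ), 0 < M →
  (∀ c ∈ condSet k P, ∃ a : ℤ, (M : ℝ) * c = (a : ℝ)) → 0 < NP k P ∧ NP k P ∣ M

/-- lower bound for `N_P` from infinitely many conductors `n + 1/q` -/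
def ST_NPL : Prop := ∀ (k : Type u) [Field k] (P : Type) [Group P] (q : ℕ), 0 < q →
  (∃ M, AlmostAll k P M) →
  (∀ n0 : ℕ, ∃ n : ℕ, n0 ≤ n ∧ (n : ℝ) + 1 / (q : ℝ) ∈ condSet k P) → q ∣ NP k P

/-! ## Block H: Herbrand's theorem -/

/-- Herbrand's theorem for the last break of a quotient -/
def ST_HB : Prop := ∀ (G Q : Type u) [Group G] [Fintype G] [Group Q] [Fintype Q]
  (s : G → ℕ) (sQ : Q → ℕ) (r : G →* Q), Function.Surjective r → RF s → RF sQ →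
  (∀ g, r g ≠ 1 → Nat.card r.ker * sQ (r g) = cs s r.ker g) → Nontrivial Q →
  (∀ g, r g ≠ 1 → phi s (s g) ≤ cond sQ) ∧ ∃ g, r g ≠ 1 ∧ phi s (s g) = cond sQ

/-- `phi` is strictly increasing -/
def ST_PHM : Prop := ∀ (G : Type u) [Group G] [Fintype G] (s : G → ℕ) (a b : ℝ), 0 ≤ a → a < b →
  phi s a < phi s b

/-- comparison of `phi` with that of a subgroup outside of which `s = 1` -/
def ST_PH1 : Prop := ∀ (G : Type u) [Group G] [Fintype G] (s : G → ℕ), RF s →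
  ∀ G1 : Subgroup G, (∀ g, g ∉ G1 → s g = 1) → ∀ [Fintype G1] (g : G1), g ≠ 1 →
  phi s (s (g : G)) = 1 + (phi (fun h : G1 => s (h : G)) (s (g : G)) - 1) / (G1.index : ℝ)

/-- Herbrand's theorem for intermediate fields -/
def ST_HBF : Prop := ∀ (p : ℕ) [Fact p.Prime] (k K L : Type u) [Field k] [CharP k p] [Field K]
  [Field L] [Algebra K L] [FiniteDimensional K L] [IsGalois K L] (κ : k →+* K)
  (v : AddValuation L (WithTop ℤ)), Ram κ v → IsPGroup p (L ≃ₐ[K] L) →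
  ∀ (E : IntermediateField K L) [Normal K E] (vE : AddValuation E (WithTop ℤ)),
  TV ((algebraMap K E).comp κ) vE → (∀ x : E, v (x : L) = Module.finrank E L • vE x) →
  (∃ σ : L ≃ₐ[K] L, σ ∉ E.fixingSubgroup) →
  (∀ σ : L ≃ₐ[K] L, σ ∉ E.fixingSubgroup → phi (fun σ : L ≃ₐ[K] L => s v σ) (s v σ) ≤
      cond (fun τ : E ≃ₐ[K] E => s vE τ)) ∧
    ∃ σ : L ≃ₐ[K] L, σ ∉ E.fixingSubgroup ∧ phi (fun σ : L ≃ₐ[K] L => s v σ) (s v σ) =
      cond (fun τ : E ≃ₐ[K] E => s vE τ)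

/-! ## Block A: Artin-Schreier extensions -/

/-- the conductor of an Artin-Schreier extension, seen in a big extension -/
def ST_ASC : Prop := ∀ (p : ℕ) [Fact p.Prime] (k K L : Type u) [Field k] [CharP k p] [Field K]
  [Field L] [Algebra K L] [FiniteDimensional K L] [IsGalois K L] (κ : k →+* K)
  (v : AddValuation L (WithTop ℤ)), Ram κ v → IsPGroup p (L ≃ₐ[K] L) →
  ∀ (x h : K) (y : L) (m : ℕ), 1 ≤ m → ¬ p ∣ m → y ^ p - y = algebraMap K L x →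
  v (algebraMap K L (x - (h ^ p - h))) =
    ((-((Module.finrank K L : ℤ) * m) : ℤ) : WithTop ℤ) →
  (∀ σ : L ≃ₐ[K] L, σ y ≠ y → phi (fun σ : L ≃ₐ[K] L => s v σ) (s v σ) ≤ (m : ℝ)) ∧
    ∃ σ : L ≃ₐ[K] L, σ y ≠ y ∧ phi (fun σ : L ≃ₐ[K] L => s v σ) (s v σ) = (m : ℝ)

open scoped Classical in
/-- reduction of the polynomials used in the construction -/
def ST_POL : Prop := ∀ (p : ℕ) [Fact p.Prime] (k E : Type u) [Field k] [CharP k p]
  [IsAlgClosed k] [Field E] (κ : k →+* E) (v : AddValuation E (WithTop ℤ)),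
  (∀ c : k, c ≠ 0 → v (κ c) = 0) → ∀ (g : ℕ), 1 ≤ g → ∀ w : E, v w = ((-1 : ℤ) : WithTop ℤ) →
  ∀ n : ℕ, 2 ≤ n → ¬ p ∣ n → ¬ p ∣ n + 1 → p ≠ 2 → ∀ e z : k, (z ≠ 0 ∨ e ≠ 0) →
  ∃ h : E, v ((w ^ p ^ g - w) ^ n * κ e - ((w ^ p ^ g - w) ^ n * w +
      (w ^ p ^ g - w) ^ (n + 1) * κ (((n : k) + 1)⁻¹)) * κ z - (h ^ p - h)) =
    ((-((p ^ g * (n - 1) + (if z = 0 then 1 else 2) : ℕ) : ℤ) : ℤ) : WithTop ℤ)

/-- infinitely many Artin-Schreier classes -/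
def ST_NTR : Prop := ∀ (p : ℕ) [Fact p.Prime] (k : Type u) [Field k] [CharP k p]
  [IsAlgClosed k] (L : Type u) [Field L] [Algebra (LaurentSeries k) L]
  [FiniteDimensional (LaurentSeries k) L] [IsGalois (LaurentSeries k) L] (f : L),
  ∃ h : LaurentSeries k, ∀ y : L, y ^ p - y ≠ f + algebraMap (LaurentSeries k) L h

/-- the field `k((t))(w)`, `w^q - w = 1/t` -/
def ST_L1 : Prop := ∀ (p : ℕ) [Fact p.Prime] (k : Type u) [Field k] [CharP k p]
  [IsAlgClosed k] (g : ℕ), 1 ≤ g →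
  ∃ (L : Type u) (_ : Field L) (_ : Algebra (LaurentSeries k) L) (w : L),
    FiniteDimensional (LaurentSeries k) L ∧ IsGalois (LaurentSeries k) L ∧
    w ^ p ^ g - w = algebraMap (LaurentSeries k) L (HahnSeries.single (-1) 1) ∧
    (∀ σ : L ≃ₐ[LaurentSeries k] L, ∃ c : k, c ^ p ^ g = c ∧
      σ w = w + algebraMap (LaurentSeries k) L (κ0 k c)) ∧
    (∀ c : k, c ^ p ^ g = c → ∃ σ : L ≃ₐ[LaurentSeries k] L,
      σ w = w + algebraMap (LaurentSeries k) L (κ0 k c)) ∧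
    (∀ σ τ : L ≃ₐ[LaurentSeries k] L, σ w = τ w → σ = τ)

/-! ## Block E: the embedding problem -/

/-- Artin-Schreier polynomials are irreducible if they have no root -/
def ST_AS : Prop := ∀ (p : ℕ) [Fact p.Prime] (L : Type u) [Field L] [CharP L p] (a : L),
  (∀ y : L, y ^ p - y ≠ a) → Irreducible ((Polynomial.X ^ p - Polynomial.X - Polynomial.C a) :
    Polynomial L)

/-- splitting of a factor set in `L` and Hilbert 90 -/
def ST_EMA : Prop := ∀ (p : ℕ) [Fact p.Prime] (K L : Type u) [Field K] [CharP K p] [Field L]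
  [Algebra K L] [FiniteDimensional K L] [IsGalois K L]
  (c : (L ≃ₐ[K] L) → (L ≃ₐ[K] L) → ZMod p),
  (∀ σ τ ρ, c σ τ + c (σ * τ) ρ = c τ ρ + c σ (τ * ρ)) →
  ∃ (b : (L ≃ₐ[K] L) → L) (f : L),
    (∀ σ τ, b σ + σ (b τ) = b (σ * τ) + ((c σ τ).val : L)) ∧
    (∀ σ, b σ ^ p - b σ = σ f - f)

/-- the automorphisms of `L(y)`, `y^p - y = f` -/
def ST_EMB1 : Prop := ∀ (p : ℕ) [Fact p.Prime] (K L : Type u) [Field K] [CharP K p] [Field L]
  [Algebra K L] [FiniteDimensional K L] [IsGalois K L] (P : Type) [Group P] [Finite P]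
  (r : P →* (L ≃ₐ[K] L)), Function.Surjective r → ∀ z : P, z ∈ Subgroup.center P →
  orderOf z = p → r.ker = Subgroup.zpowers z →
  (∀ f : L, ∃ h : K, ∀ y : L, y ^ p - y ≠ f + algebraMap K L h) →
  ∃ (M : Type u) (_ : Field M) (_ : Algebra K M) (_ : Algebra L M) (_ : IsScalarTower K L M)
    (_ : FiniteDimensional K M) (_ : IsGalois K M) (i : (M ≃ₐ[K] M) ≃* P),
    ∀ (σ : M ≃ₐ[K] M) (x : L), σ (algebraMap L M x) = algebraMap L M (r (i σ) x)

/-- solution of the embedding problem over `k((t))` -/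
def ST_EMB : Prop := ∀ (p : ℕ) [Fact p.Prime] (k : Type u) [Field k] [CharP k p]
  [IsAlgClosed k] (L : Type u) [Field L] [Algebra (LaurentSeries k) L]
  [FiniteDimensional (LaurentSeries k) L] [IsGalois (LaurentSeries k) L]
  (P : Type) [Group P] [Finite P], IsPGroup p P → ∀ (r : P →* (L ≃ₐ[LaurentSeries k] L)),
  Function.Surjective r →
  ∃ (M : Type u) (_ : Field M) (_ : Algebra (LaurentSeries k) M) (_ : Algebra L M)
    (_ : IsScalarTower (LaurentSeries k) L M) (_ : FiniteDimensional (LaurentSeries k) M)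
    (_ : IsGalois (LaurentSeries k) M) (i : (M ≃ₐ[LaurentSeries k] M) ≃* P),
    ∀ (σ : M ≃ₐ[LaurentSeries k] M) (x : L),
      σ (algebraMap L M x) = algebraMap L M (r (i σ) x)

/-- a big `p`-extension containing given Artin-Schreier roots -/
def ST_TWM : Prop := ∀ (p : ℕ) [Fact p.Prime] (K L : Type u) [Field K] [CharP K p] [Field L]
  [Algebra K L] [FiniteDimensional K L] [IsGalois K L], IsPGroup p (L ≃ₐ[K] L) →
  ∀ (d : ℕ) (x : Fin d → L), (∀ σ : L ≃ₐ[K] L, ∃ A : Matrix (Fin d) (Fin d) (ZMod p),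
    ∀ i, σ (x i) = ∑ j, ((A i j).val : L) * x j) →
  ∃ (M : Type u) (_ : Field M) (_ : Algebra K M) (_ : Algebra L M) (_ : IsScalarTower K L M)
    (_ : FiniteDimensional K M) (_ : IsGalois K M) (y : Fin d → M),
    IsPGroup p (M ≃ₐ[K] M) ∧ ∀ i, y i ^ p - y i = algebraMap L M (x i)

/-! ## Block T: twisting -/

/-- The data for the lower bound. `β` is the inclusion of an elementary abelian normal
subgroup, `A x` the matrix of conjugation by `x`, and `A x e = e + ι x z`. -/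
structure TwD (p g d : ℕ) (k : Type u) [Field k] (P : Type) [Group P]
    (β : Multiplicative (Fin d → ZMod p) →* P) (A : P → Matrix (Fin d) (Fin d) (ZMod p))
    (e z : Fin d → k) (ι : P → k) : Prop where
  inj : Function.Injective β
  conj : ∀ (x : P) (u : Fin d → ZMod p), x * β (Multiplicative.ofAdd u) * x⁻¹ =
    β (Multiplicative.ofAdd ((A x).mulVec u))
  one : A 1 = 1
  mul : ∀ x y, A (x * y) = A x * A y
  hull : ∀ ψ : Fin d → ZMod p, ∑ i, ((ψ i).val : k) * e i = 0 →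
    ∑ i, ((ψ i).val : k) * z i = 0 → ψ = 0
  ez : ∀ x i, ∑ j, ((A x i j).val : k) * e j = e i + ι x * z i
  zz : ∀ x i, ∑ j, ((A x i j).val : k) * z j = z i
  z0 : z ≠ 0
  add : ∀ x y, ι (x * y) = ι x + ι y
  fq : ∀ x, ι x ^ p ^ g = ι x
  surj : ∀ c : k, c ^ p ^ g = c → ∃ x, ι x = c

/-- the ramification of a big field outside `Gal(M/L)` is bounded in terms of `L` -/
def ST_CL : Prop := ∀ (p : ℕ) [Fact p.Prime] (k : Type u) [Field k] [CharP k p]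
  [IsAlgClosed k] (L : Type u) [Field L] [Algebra (LaurentSeries k) L]
  [FiniteDimensional (LaurentSeries k) L] [IsGalois (LaurentSeries k) L], ∃ c0 : ℝ,
  ∀ (M : Type u) [Field M] [Algebra (LaurentSeries k) M] [Algebra L M]
  [IsScalarTower (LaurentSeries k) L M] [FiniteDimensional (LaurentSeries k) M]
  [IsGalois (LaurentSeries k) M] (v : AddValuation M (WithTop ℤ)), (∀ x, v x = val k M x) →
  Ram (κ0 k) v → IsPGroup p (M ≃ₐ[LaurentSeries k] M) → ∀ σ : M ≃ₐ[LaurentSeries k] M,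
  (∃ x : L, σ (algebraMap L M x) ≠ algebraMap L M x) →
  phi (fun σ : M ≃ₐ[LaurentSeries k] M => s v σ) (s v σ) ≤ c0

/-- a `P`-extension containing `w` with `w^q - w = 1/t` -/
def ST_L2 : Prop := ∀ (p : ℕ) [Fact p.Prime] (k : Type u) [Field k] [CharP k p]
  [IsAlgClosed k] (g : ℕ), 1 ≤ g → ∀ (P : Type) [Group P] [Finite P], IsPGroup p P →
  ∀ (ι : P → k), (∀ x y, ι (x * y) = ι x + ι y) → (∀ x, ι x ^ p ^ g = ι x) →
  (∀ c : k, c ^ p ^ g = c → ∃ x, ι x = c) →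
  ∃ (L : Type u) (_ : Field L) (_ : Algebra (LaurentSeries k) L) (w : L)
    (_ : FiniteDimensional (LaurentSeries k) L) (_ : IsGalois (LaurentSeries k) L)
    (i : (L ≃ₐ[LaurentSeries k] L) ≃* P),
    w ^ p ^ g - w = algebraMap (LaurentSeries k) L (HahnSeries.single (-1) 1) ∧
    ∀ σ : L ≃ₐ[LaurentSeries k] L, σ w = w + algebraMap (LaurentSeries k) L (κ0 k (ι (i σ)))

/-- the big field with its elements `w`, `y_i` -/
def ST_PREP : Prop := ∀ (p : ℕ) [Fact p.Prime] (k : Type u) [Field k] [CharP k p]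
  [IsAlgClosed k] (g d : ℕ), 1 ≤ g → ∀ (P : Type) [Group P] [Finite P], IsPGroup p P →
  ∀ (β : Multiplicative (Fin d → ZMod p) →* P) (A : P → Matrix (Fin d) (Fin d) (ZMod p))
  (e z : Fin d → k) (ι : P → k), TwD p g d k P β A e z ι → ∃ c0 : ℝ, ∀ n : ℕ, ¬ p ∣ n + 1 →
  ∃ (M : Type u) (_ : Field M) (_ : Algebra (LaurentSeries k) M)
    (_ : FiniteDimensional (LaurentSeries k) M) (_ : IsGalois (LaurentSeries k) M)
    (v : AddValuation M (WithTop ℤ)) (w : M) (y : Fin d → M)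
    (ρ : (M ≃ₐ[LaurentSeries k] M) →* P),
    (∀ x, v x = val k M x) ∧ Ram (κ0 k) v ∧ IsPGroup p (M ≃ₐ[LaurentSeries k] M) ∧
    Function.Surjective ρ ∧
    w ^ p ^ g - w = algebraMap (LaurentSeries k) M (HahnSeries.single (-1) 1) ∧
    (∀ σ : M ≃ₐ[LaurentSeries k] M, σ w = w + algebraMap (LaurentSeries k) M
      (κ0 k (ι (ρ σ)))) ∧
    (∀ i, y i ^ p - y i = (w ^ p ^ g - w) ^ n * algebraMap (LaurentSeries k) M (κ0 k (e i)) -
      ((w ^ p ^ g - w) ^ n * w + (w ^ p ^ g - w) ^ (n + 1) *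
        algebraMap (LaurentSeries k) M (κ0 k (((n : k) + 1)⁻¹))) *
        algebraMap (LaurentSeries k) M (κ0 k (z i))) ∧
    (∀ σ : M ≃ₐ[LaurentSeries k] M, ρ σ ≠ 1 →
      phi (fun σ : M ≃ₐ[LaurentSeries k] M => s v σ) (s v σ) ≤ c0)

/-- the twisted homomorphism -/
def ST_TWH : Prop := ∀ (p : ℕ) [Fact p.Prime] (k : Type u) [Field k] [CharP k p]
  (g d : ℕ) (P : Type) [Group P]
  (β : Multiplicative (Fin d → ZMod p) →* P) (A : P → Matrix (Fin d) (Fin d) (ZMod p))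
  (e z : Fin d → k) (ι : P → k), TwD p g d k P β A e z ι →
  ∀ (K M : Type u) [Field K] [CharP K p] [Field M] [Algebra K M] (κ : k →+* K)
  (ρ : (M ≃ₐ[K] M) →* P) (w : M) (y : Fin d → M) (T T' : K),
  (∀ σ : M ≃ₐ[K] M, σ w = w + algebraMap K M (κ (ι (ρ σ)))) →
  (∀ i, y i ^ p - y i = algebraMap K M T * algebraMap K M (κ (e i)) -
    (algebraMap K M T * w + algebraMap K M T') * algebraMap K M (κ (z i))) →
  ∃ (b : (M ≃ₐ[K] M) → Fin d → ZMod p) (ρ' : (M ≃ₐ[K] M) →* P),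
    (∀ σ i, ((b σ i).val : M) = ∑ j, ((A (ρ σ) i j).val : M) * σ (y j) - y i) ∧
    ∀ σ, ρ' σ = β (Multiplicative.ofAdd (b σ)) * ρ σ

/-- the subfield `K(w)` and the ramification outside it -/
def ST_FI1 : Prop := ∀ (p : ℕ) [Fact p.Prime] (k K M : Type u) [Field k] [CharP k p]
  [IsAlgClosed k] [Field K] [Field M] [Algebra K M] [FiniteDimensional K M] [IsGalois K M]
  (κ : k →+* K) (v : AddValuation M (WithTop ℤ)), Ram κ v → IsPGroup p (M ≃ₐ[K] M) →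
  ∀ (g : ℕ), 1 ≤ g → ∀ (w : M) (T : K) (j : (M ≃ₐ[K] M) → k),
  w ^ p ^ g - w = algebraMap K M T →
  v (algebraMap K M T) = ((-(Module.finrank K M : ℤ) : ℤ) : WithTop ℤ) →
  (∀ σ : M ≃ₐ[K] M, σ w = w + algebraMap K M (κ (j σ))) → (∀ σ, j σ ^ p ^ g = j σ) →
  (∀ c : k, c ^ p ^ g = c → ∃ σ, j σ = c) →
  ∃ E : IntermediateField K M, Normal K E ∧ w ∈ E ∧ Module.finrank K E = p ^ g ∧
    (∀ σ : M ≃ₐ[K] M, σ ∈ E.fixingSubgroup ↔ σ w = w) ∧
    (∀ σ : M ≃ₐ[K] M, σ w ≠ w → s v σ = 1) ∧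
    v w = ((-(Module.finrank E M : ℤ) : ℤ) : WithTop ℤ)

open scoped Classical in
/-- the breaks inside `Gal(M/K(w))` -/
def ST_FI2 : Prop := ∀ (p : ℕ) [Fact p.Prime], p ≠ 2 → ∀ (k K M : Type u) [Field k] [CharP k p]
  [IsAlgClosed k] [Field K] [Field M] [Algebra K M] [FiniteDimensional K M] [IsGalois K M]
  (κ : k →+* K) (v : AddValuation M (WithTop ℤ)), Ram κ v → IsPGroup p (M ≃ₐ[K] M) →
  ∀ (g : ℕ), 1 ≤ g → ∀ (w : M) (T : K) (j : (M ≃ₐ[K] M) → k),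
  w ^ p ^ g - w = algebraMap K M T →
  v (algebraMap K M T) = ((-(Module.finrank K M : ℤ) : ℤ) : WithTop ℤ) →
  (∀ σ : M ≃ₐ[K] M, σ w = w + algebraMap K M (κ (j σ))) → (∀ σ, j σ ^ p ^ g = j σ) →
  (∀ c : k, c ^ p ^ g = c → ∃ σ, j σ = c) →
  ∀ (n d : ℕ) (e z : Fin d → k) (y : Fin d → M), 2 ≤ n → ¬ p ∣ n → ¬ p ∣ n + 1 →
  (∀ i, y i ^ p - y i = (w ^ p ^ g - w) ^ n * algebraMap K M (κ (e i)) -
    ((w ^ p ^ g - w) ^ n * w + (w ^ p ^ g - w) ^ (n + 1) *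
      algebraMap K M (κ (((n : k) + 1)⁻¹))) * algebraMap K M (κ (z i))) →
  ∀ ψ : Fin d → ZMod p, (∑ i, ((ψ i).val : k) * z i ≠ 0 ∨ ∑ i, ((ψ i).val : k) * e i ≠ 0) →
  (∀ σ : M ≃ₐ[K] M, σ w = w → ∑ i, ((ψ i).val : M) * (σ (y i) - y i) ≠ 0 →
    phi (fun σ : M ≃ₐ[K] M => s v σ) (s v σ) ≤
      (if ∑ i, ((ψ i).val : k) * z i = 0 then (n : ℝ) else (n : ℝ) + 1 / ((p ^ g : ℕ) : ℝ))) ∧
  ∃ σ : M ≃ₐ[K] M, σ w = w ∧ ∑ i, ((ψ i).val : M) * (σ (y i) - y i) ≠ 0 ∧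
    phi (fun σ : M ≃ₐ[K] M => s v σ) (s v σ) =
      (if ∑ i, ((ψ i).val : k) * z i = 0 then (n : ℝ) else (n : ℝ) + 1 / ((p ^ g : ℕ) : ℝ))

open scoped Classical in
/-- group theory: the twisted homomorphism is onto, and its largest break -/
def ST_FI3 : Prop := ∀ (p : ℕ) [Fact p.Prime] (k : Type u) [Field k] [CharP k p]
  (g d : ℕ) (P : Type) [Group P]
  (β : Multiplicative (Fin d → ZMod p) →* P) (A : P → Matrix (Fin d) (Fin d) (ZMod p))
  (e z : Fin d → k) (ι : P → k), 1 ≤ g → TwD p g d k P β A e z ι →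
  ∀ (G : Type u) [Group G] [Fintype G] (s : G → ℕ), RF s →
  ∀ (ρ ρ' : G →* P) (b : G → Fin d → ZMod p), Function.Surjective ρ →
  (∀ σ, ρ' σ = β (Multiplicative.ofAdd (b σ)) * ρ σ) → ∀ (c0 : ℝ) (n : ℕ), 1 ≤ n → c0 < n →
  (∀ σ, ρ σ ≠ 1 → phi s (s σ) ≤ c0) → (∀ σ, ι (ρ σ) ≠ 0 → s σ = 1) →
  (∀ ψ : Fin d → ZMod p, ψ ≠ 0 →
    (∀ σ, ι (ρ σ) = 0 → ∑ i, ψ i * b σ i ≠ 0 → phi s (s σ) ≤
      (if ∑ i, ((ψ i).val : k) * z i = 0 then (n : ℝ) else (n : ℝ) + 1 / ((p ^ g : ℕ) : ℝ))) ∧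
    ∃ σ, ι (ρ σ) = 0 ∧ ∑ i, ψ i * b σ i ≠ 0 ∧ phi s (s σ) =
      (if ∑ i, ((ψ i).val : k) * z i = 0 then (n : ℝ) else (n : ℝ) + 1 / ((p ^ g : ℕ) : ℝ))) →
  Function.Surjective ρ' ∧
    (∀ σ, ρ' σ ≠ 1 → phi s (s σ) ≤ (n : ℝ) + 1 / ((p ^ g : ℕ) : ℝ)) ∧
    ∃ σ, ρ' σ ≠ 1 ∧ phi s (s σ) = (n : ℝ) + 1 / ((p ^ g : ℕ) : ℝ)

/-- the conductor of a quotient -/
def ST_QUO : Prop := ∀ (p : ℕ) [Fact p.Prime] (k : Type u) [Field k] [CharP k p]
  [IsAlgClosed k] (M : Type u) [Field M] [Algebra (LaurentSeries k) M]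
  [FiniteDimensional (LaurentSeries k) M] [IsGalois (LaurentSeries k) M]
  (v : AddValuation M (WithTop ℤ)), (∀ x, v x = val k M x) → Ram (κ0 k) v →
  IsPGroup p (M ≃ₐ[LaurentSeries k] M) → ∀ (P : Type) [Group P]
  (ρ : (M ≃ₐ[LaurentSeries k] M) →* P), Function.Surjective ρ → ∀ C : ℝ,
  (∀ σ, ρ σ ≠ 1 → phi (fun σ : M ≃ₐ[LaurentSeries k] M => s v σ) (s v σ) ≤ C) →
  (∃ σ, ρ σ ≠ 1 ∧ phi (fun σ : M ≃ₐ[LaurentSeries k] M => s v σ) (s v σ) = C) →
  C ∈ condSet k P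

/-- the conductor of the twisted extension -/
def ST_FINT : Prop := ∀ (p : ℕ) [Fact p.Prime], p ≠ 2 → ∀ (k : Type u) [Field k] [CharP k p]
  [IsAlgClosed k] (g d : ℕ), 1 ≤ g → ∀ (P : Type) [Group P] [Finite P], IsPGroup p P →
  ∀ (β : Multiplicative (Fin d → ZMod p) →* P) (A : P → Matrix (Fin d) (Fin d) (ZMod p))
  (e z : Fin d → k) (ι : P → k), TwD p g d k P β A e z ι → ∃ n0 : ℕ, ∀ n : ℕ, n0 ≤ n →
  ¬ p ∣ n → ¬ p ∣ n + 1 → (n : ℝ) + 1 / ((p ^ g : ℕ) : ℝ) ∈ condSet k P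

/-! ## Block G: the groups -/

/-- data from an elementary abelian subgroup `B` with `|[B, P]| = p` -/
def ST_RK1 : Prop := ∀ (p : ℕ) [Fact p.Prime] (k : Type u) [Field k] [CharP k p]
  [IsAlgClosed k] (P : Type) [Group P] [Finite P], IsPGroup p P → ∀ B : Subgroup P,
  (∀ a ∈ B, ∀ b ∈ B, a * b = b * a) → (∀ a ∈ B, a ^ p = 1) →
  Nat.card (⁅B, (⊤ : Subgroup P)⁆ : Subgroup P) = p →
  ∃ (g d : ℕ) (β : Multiplicative (Fin d → ZMod p) →* P)
    (A : P → Matrix (Fin d) (Fin d) (ZMod p)) (e z : Fin d → k) (ι : P → k),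
    1 ≤ g ∧ (Subgroup.center P).relIndex B = p ^ g ∧ TwD p g d k P β A e z ι

/-- data for the Heisenberg groups -/
def ST_HEI : Prop := ∀ (p : ℕ) [Fact p.Prime] (k : Type u) [Field k] [CharP k p]
  [IsAlgClosed k] (F : Type) [Field F] [Finite F] [CharP F p],
  IsPGroup p (Heis F) ∧ Nontrivial (Heis F) ∧ MP p (Heis F) ∣ Nat.card F ∧
  ∃ (g d : ℕ) (β : Multiplicative (Fin d → ZMod p) →* Heis F)
    (A : Heis F → Matrix (Fin d) (Fin d) (ZMod p)) (e z : Fin d → k) (ι : Heis F → k),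
    1 ≤ g ∧ Nat.card F = p ^ g ∧ TwD p g d k (Heis F) β A e z ι

/-- extraspecial groups -/
def ST_EXS : Prop := ∀ (p : ℕ) [Fact p.Prime], p ≠ 2 → ∀ (P : Type) [Group P] [Finite P]
  (g : ℕ), 1 ≤ g → Nat.card P = p ^ (2 * g + 1) → Nat.card (Subgroup.center P) = p →
  commutator P ≤ Subgroup.center P → (∀ x : P, x ^ p ∈ Subgroup.center P) →
  MP p P ∣ p ^ g ∧ ∃ B : Subgroup P, (∀ a ∈ B, ∀ b ∈ B, a * b = b * a) ∧
    (∀ a ∈ B, a ^ p = 1) ∧ Nat.card (⁅B, (⊤ : Subgroup P)⁆ : Subgroup P) = p ∧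
    (Subgroup.center P).relIndex B = p ^ g

/-- the main theorem -/
def ST_MAIN : Prop := ∀ (p : ℕ) [Fact p.Prime] (k : Type u) [Field k] [CharP k p]
  [IsAlgClosed k],
  (∀ (P : Type) [Group P] [Finite P], IsPGroup p P → Nontrivial P →
    0 < NP k P ∧ NP k P ∣ MP p P ∧
    ∀ c ∈ condSet k P, ∃ z : P, z ∈ Subgroup.center P ∧ orderOf z = p ∧
      ∀ H : Subgroup P, z ∉ ⁅H, H⁆ → ∃ a : ℤ, (H.index : ℝ) * c = (a : ℝ)) ∧
  (p ≠ 2 → ∀ (P : Type) [Group P] [Finite P], IsPGroup p P → ∀ B : Subgroup P,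
    (∀ a ∈ B, ∀ b ∈ B, a * b = b * a) → (∀ a ∈ B, a ^ p = 1) →
    Nat.card (⁅B, (⊤ : Subgroup P)⁆ : Subgroup P) = p → (Subgroup.center P).relIndex B ∣ NP k P) ∧
  (p ≠ 2 → ∀ (P : Type) [Group P] [Finite P] (g : ℕ), 1 ≤ g →
    Nat.card P = p ^ (2 * g + 1) → Nat.card (Subgroup.center P) = p →
    commutator P ≤ Subgroup.center P → (∀ x : P, x ^ p ∈ Subgroup.center P) →
    NP k P = p ^ g) ∧
  (p ≠ 2 → ∀ (F : Type) [Field F] [Finite F] [CharP F p], NP k (Heis F) = Nat.card F)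

end Pool.Agent.Helper21.DN
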