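import Pool.Agent.Helper61.DN.VA1
import Pool.Agent.Helper33.DN.VA
import Pool.Agent.Helper53.DN.VAL
import Pool.Agent.Helper61.DN.TOW
import Pool.Agent.Helper61.DN.RAM
import Pool.Agent.Helper67.DN.ISO
import Pool.Agent.Helper38.DN.S1
import Pool.Agent.Helper67.DN.RFV
import Pool.Agent.Helper67.DN.BCH
import Pool.Agent.Helper80.DN.P3
import Pool.Agent.Helper67.DN.XM
import Pool.Agent.Helper67.DN.EUL
import Pool.Agent.Helper32.DN.DETI
import Pool.Agent.Helper46.DN.DETT
import Pool.Agent.Helper45.DN.DIST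
import Pool.Agent.Helper41.DN.CYC
import Pool.Agent.Helper24.DN.GRF
import Pool.Agent.Helper67.DN.COS
import Pool.Agent.Helper67.DN.OUT
import Pool.Agent.Helper89.DN.CENT
import Pool.Agent.Helper35.DN.CHR
import Pool.Agent.Helper67.DN.UBG
import Pool.Agent.Helper30.DN.COND
import Pool.Agent.Helper80.DN.UB
import Pool.Agent.Helper67.DN.NPU
import Pool.Agent.Helper67.DN.NPL
import Pool.Agent.Helper67.DN.PHM
import Pool.Agent.Helper89.DN.HB
import Pool.Agent.Helper7.DN.PH1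
import Pool.Agent.Helper79.DN.HBF
import Pool.Agent.Helper79.DN.ASC
import Pool.Agent.Helper35.DN.POL
import Pool.Agent.Helper8.DN.NTR
import Pool.Agent.Helper38.DN.L1
import Pool.Agent.Helper67.DN.AS
import Pool.Agent.Helper35.DN.EMA
import Pool.Agent.Helper85.DN.EMB1
import Pool.Agent.Helper58.DN.EMB
import Pool.Agent.Helper61.DN.TWM
import Pool.Agent.Helper67.DN.CL
import Pool.Agent.Helper89.DN.L2
import Pool.Agent.Helper67.DN.PREP
import Pool.Agent.Helper7.DN.TWH
import Pool.Agent.Helper51.DN.FI1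
import Pool.Agent.Helper58.DN.FI2
import Pool.Agent.Helper67.DN.FI3
import Pool.Agent.Helper67.DN.QUO
import Pool.Agent.Helper33.DN.FINT
import Pool.Agent.Helper41.DN.RK1
import Pool.Agent.Helper2.DN.HEI
import Pool.Agent.Helper24.DN.EXS
import Pool.Agent.Helper67.DN.MAIN

set_option autoImplicit false

namespace Pool.Agent.Helper21.DN

universe u

theorem all_VA1 : ST_VA1.{u} := st_VA1
theorem all_VA : ST_VA.{u} := st_VA all_VA1
theorem all_VAL : ST_VAL.{u} := st_VAL all_VA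
theorem all_TOW : ST_TOW.{u} := st_TOW
theorem all_RAM : ST_RAM.{u} := st_RAM all_VAL all_TOW
theorem all_ISO : ST_ISO.{u} := st_ISO
theorem all_S1 : ST_S1.{u} := st_S1
theorem all_RFV : ST_RFV.{u} := st_RFV all_S1
theorem all_BCH : ST_BCH.{u} := st_BCH
theorem all_P3 : ST_P3.{u} := st_P3 all_S1
theorem all_XM : ST_XM.{u} := st_XM all_S1
theorem all_EUL : ST_EUL.{u} := st_EUL all_S1
theorem all_DETI : ST_DETI.{u} := st_DETI
theorem all_DETT : ST_DETT.{u} := Pool.Agent.Helper46.DN.st_DETT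
theorem all_DIST : ST_DIST.{u} := st_DIST all_XM all_EUL all_DETI all_DETT
theorem all_CYC : ST_CYC.{u} := st_CYC all_RFV all_BCH all_DIST
theorem all_GRF : ST_GRF.{u} := st_GRF all_RFV all_BCH all_P3 all_CYC
theorem all_COS : ST_COS.{u} := st_COS
theorem all_OUT : ST_OUT.{u} := st_OUT
theorem all_CENT : ST_CENT.{u} := st_CENT
theorem all_CHR : ST_CHR.{u} := Pool.Agent.Helper35.DN.st_CHR
theorem all_UBG : ST_UBG.{u} := st_UBG all_COS all_OUT all_CENT all_CHR
theorem all_COND : ST_COND.{u} := st_COND all_S1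
theorem all_UB : ST_UB.{u} := st_UB all_RAM all_GRF all_UBG all_COND
theorem all_NPU : ST_NPU.{u} := st_NPU
theorem all_NPL : ST_NPL.{u} := st_NPL
theorem all_PHM : ST_PHM.{u} := st_PHM
theorem all_HB : ST_HB.{u} := st_HB all_COS all_PHM
theorem all_PH1 : ST_PH1.{u} := st_PH1
theorem all_HBF : ST_HBF.{u} := st_HBF all_RFV all_P3 all_HB
theorem all_ASC : ST_ASC.{u} := st_ASC all_S1 all_HBF
theorem all_POL : ST_POL.{u} := Pool.Agent.Helper35.DN.st_POL
theorem all_NTR : ST_NTR.{u} := st_NTR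
theorem all_L1 : ST_L1.{u} := st_L1 all_VAL
theorem all_AS : ST_AS.{u} := st_AS
theorem all_EMA : ST_EMA.{u} := Pool.Agent.Helper35.DN.st_EMA
theorem all_EMB1 : ST_EMB1.{u} := st_EMB1 all_EMA all_AS
theorem all_EMB : ST_EMB.{u} := st_EMB all_NTR all_EMB1
theorem all_TWM : ST_TWM.{u} := st_TWM
theorem all_CL : ST_CL.{u} := st_CL all_RAM all_TOW all_HBF all_COND all_ISO
theorem all_L2 : ST_L2.{u} := st_L2 all_L1 all_EMB
theorem all_PREP : ST_PREP.{u} := st_PREP all_RAM all_L2 all_TWM all_CL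
theorem all_TWH : ST_TWH.{u} := st_TWH
theorem all_FI1 : ST_FI1.{u} := st_FI1 all_S1 all_RFV all_P3
theorem all_FI2 : ST_FI2.{u} := st_FI2 all_FI1 all_BCH all_ASC all_POL all_PH1 all_RFV
theorem all_FI3 : ST_FI3.{u} := st_FI3
theorem all_QUO : ST_QUO.{u} := st_QUO all_RAM all_TOW all_HBF all_COND
theorem all_FINT : ST_FINT.{u} := st_FINT all_PREP all_TWH all_FI1 all_FI2 all_FI3 all_QUO all_RFV
theorem all_RK1 : ST_RK1.{u} := st_RK1
theorem all_HEI : ST_HEI.{u} := st_HEI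
theorem all_EXS : ST_EXS := st_EXS
theorem all_MAIN : ST_MAIN.{u} := st_MAIN all_UB all_NPU all_NPL all_FINT all_RK1 all_HEI all_EXS

end Pool.Agent.Helper21.DN
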