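import Pool.Agent.Helper21.DN.Stmts

set_option autoImplicit false

namespace Pool.Agent.Helper21.DN

universe u

/-- all leaf modules together prove the main theorem; checks that the interfaces fit -/
theorem asm
    (dVA1 : ST_VA1.{u}) (dVA : ST_VA1.{u} → ST_VA.{u}) (dVAL : ST_VA.{u} → ST_VAL.{u})
    (dTOW : ST_TOW.{u}) (dRAM : ST_VAL.{u} → ST_TOW.{u} → ST_RAM.{u}) (dISO : ST_ISO.{u})
    (dS1 : ST_S1.{u}) (dRFV : ST_S1.{u} → ST_RFV.{u}) (dBCH : ST_BCH.{u})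
    (dP3 : ST_S1.{u} → ST_P3.{u}) (dXM : ST_S1.{u} → ST_XM.{u}) (dEUL : ST_S1.{u} → ST_EUL.{u})
    (dDETI : ST_DETI.{u}) (dDETT : ST_DETT.{u})
    (dDIST : ST_XM.{u} → ST_EUL.{u} → ST_DETI.{u} → ST_DETT.{u} → ST_DIST.{u})
    (dCYC : ST_RFV.{u} → ST_BCH.{u} → ST_DIST.{u} → ST_CYC.{u})
    (dGRF : ST_RFV.{u} → ST_BCH.{u} → ST_P3.{u} → ST_CYC.{u} → ST_GRF.{u})
    (dCOS : ST_COS.{u}) (dOUT : ST_OUT.{u}) (dCENT : ST_CENT.{u}) (dCHR : ST_CHR.{u})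
    (dUBG : ST_COS.{u} → ST_OUT.{u} → ST_CENT.{u} → ST_CHR.{u} → ST_UBG.{u})
    (dCOND : ST_S1.{u} → ST_COND.{u})
    (dUB : ST_RAM.{u} → ST_GRF.{u} → ST_UBG.{u} → ST_COND.{u} → ST_UB.{u})
    (dNPU : ST_NPU.{u}) (dNPL : ST_NPL.{u}) (dPHM : ST_PHM.{u})
    (dHB : ST_COS.{u} → ST_PHM.{u} → ST_HB.{u}) (dPH1 : ST_PH1.{u})
    (dHBF : ST_RFV.{u} → ST_P3.{u} → ST_HB.{u} → ST_HBF.{u})
    (dASC : ST_S1.{u} → ST_HBF.{u} → ST_ASC.{u}) (dPOL : ST_POL.{u}) (dNTR : ST_NTR.{u})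
    (dL1 : ST_VAL.{u} → ST_L1.{u}) (dAS : ST_AS.{u}) (dEMA : ST_EMA.{u})
    (dEMB1 : ST_EMA.{u} → ST_AS.{u} → ST_EMB1.{u})
    (dEMB : ST_NTR.{u} → ST_EMB1.{u} → ST_EMB.{u}) (dTWM : ST_TWM.{u})
    (dCL : ST_RAM.{u} → ST_TOW.{u} → ST_HBF.{u} → ST_COND.{u} → ST_ISO.{u} → ST_CL.{u})
    (dL2 : ST_L1.{u} → ST_EMB.{u} → ST_L2.{u})
    (dPREP : ST_RAM.{u} → ST_L2.{u} → ST_TWM.{u} → ST_CL.{u} → ST_PREP.{u})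
    (dTWH : ST_TWH.{u}) (dFI1 : ST_S1.{u} → ST_RFV.{u} → ST_P3.{u} → ST_FI1.{u})
    (dFI2 : ST_FI1.{u} → ST_BCH.{u} → ST_ASC.{u} → ST_POL.{u} → ST_PH1.{u} → ST_RFV.{u} →
      ST_FI2.{u})
    (dFI3 : ST_FI3.{u}) (dQUO : ST_RAM.{u} → ST_TOW.{u} → ST_HBF.{u} → ST_COND.{u} → ST_QUO.{u})
    (dFINT : ST_PREP.{u} → ST_TWH.{u} → ST_FI1.{u} → ST_FI2.{u} → ST_FI3.{u} → ST_QUO.{u} →
      ST_RFV.{u} → ST_FINT.{u})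
    (dRK1 : ST_RK1.{u}) (dHEI : ST_HEI.{u}) (dEXS : ST_EXS)
    (dMAIN : ST_UB.{u} → ST_NPU.{u} → ST_NPL.{u} → ST_FINT.{u} → ST_RK1.{u} → ST_HEI.{u} →
      ST_EXS → ST_MAIN.{u}) : ST_MAIN.{u} := by
  have hVAL := dVAL (dVA dVA1)
  have hRAM := dRAM hVAL dTOW
  have hRFV := dRFV dS1
  have hP3 := dP3 dS1
  have hDIST := dDIST (dXM dS1) (dEUL dS1) dDETI dDETT
  have hCYC := dCYC hRFV dBCH hDIST
  have hGRF := dGRF hRFV dBCH hP3 hCYC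
  have hUBG := dUBG dCOS dOUT dCENT dCHR
  have hCOND := dCOND dS1
  have hUB := dUB hRAM hGRF hUBG hCOND
  have hHB := dHB dCOS dPHM
  have hHBF := dHBF hRFV hP3 hHB
  have hASC := dASC dS1 hHBF
  have hEMB1 := dEMB1 dEMA dAS
  have hEMB := dEMB dNTR hEMB1
  have hCL := dCL hRAM dTOW hHBF hCOND dISO
  have hL2 := dL2 (dL1 hVAL) hEMB
  have hPREP := dPREP hRAM hL2 dTWM hCL
  have hFI1 := dFI1 dS1 hRFV hP3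
  have hFI2 := dFI2 hFI1 dBCH hASC dPOL dPH1 hRFV
  have hQUO := dQUO hRAM dTOW hHBF hCOND
  have hFINT := dFINT hPREP dTWH hFI1 hFI2 dFI3 hQUO hRFV
  exact dMAIN hUB dNPU dNPL hFINT dRK1 dHEI dEXS

end Pool.Agent.Helper21.DN
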