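import Mathlib

set_option autoImplicit false

namespace Pool.Agent.Helper21.DN

universe u

section field

variable (k : Type u) [Field k] (L : Type u) [Field L] [Algebra (LaurentSeries k) L]

/-- The normalised valuation of a finite extension `L` of `k((t))` (`k` algebraically closed):
the order at `t` of the norm down to `k((t))`. -/
noncomputable def val (x : L) : WithTop ℤ :=
  (Algebra.norm (LaurentSeries k) x).orderTop

/-- The ramification group `G_i` in the lower numbering (as a set): the automorphisms `σ` with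
`v (σ x - x) ≥ i + 1` for all `x` with `v x ≥ 0`. -/
def lowerRam (i : ℕ) : Set (L ≃ₐ[LaurentSeries k] L) :=
  {σ | ∀ x : L, 0 ≤ val k L x → (((i : ℤ) + 1 : ℤ) : WithTop ℤ) ≤ val k L (σ x - x)}

/-- The Herbrand function `φ(u) = ∫_0^u |G_x| / |G_0| dx`, where `G_x = G_⌈x⌉`. -/
noncomputable def herbrand (u : ℝ) : ℝ :=
  ∫ x in (0 : ℝ)..u, (Nat.card (lowerRam k L ⌈x⌉₊) : ℝ) / (Nat.card (lowerRam k L 0) : ℝ)

/-- The ramification group `G^v` in the upper numbering (as a set): `G^v = G_u` for `φ(u) = v`,
that is, the intersection of the `G_u` with `φ(u) ≤ v`. -/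
def upperRam (v : ℝ) : Set (L ≃ₐ[LaurentSeries k] L) :=
  {σ | ∀ u : ℝ, 0 ≤ u → herbrand k L u ≤ v → σ ∈ lowerRam k L ⌈u⌉₊}

/-- The conductor: the supremum of the `v` with `G^v ≠ 1`. -/
noncomputable def conductor : ℝ := sSup {v : ℝ | ∃ σ ∈ upperRam k L v, σ ≠ 1}

end field

/-- The set of the conductors of all `P`-Galois extensions of `k((t))`. -/
def condSet (k : Type u) [Field k] (P : Type) [Group P] : Set ℝ :=
  {c | ∃ (L : Type u) (_ : Field L) (_ : Algebra (LaurentSeries k) L),
    FiniteDimensional (LaurentSeries k) L ∧ IsGalois (LaurentSeries k) L ∧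
      Nonempty ((L ≃ₐ[LaurentSeries k] L) ≃* P) ∧ c = conductor k L}

/-- All but finitely many of the conductors of `P`-Galois extensions lie in `(1/N) ℤ`. -/
def AlmostAll (k : Type u) [Field k] (P : Type) [Group P] (N : ℕ) : Prop :=
  0 < N ∧ {c | c ∈ condSet k P ∧ ¬ ∃ z : ℤ, (N : ℝ) * c = (z : ℝ)}.Finite

/-- The number `N_P`. -/
noncomputable def NP (k : Type u) [Field k] (P : Type) [Group P] : ℕ :=
  sInf {N | AlmostAll k P N}

/-- The least index of a subgroup `H` with `z` outside the derived subgroup of `H`. -/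
noncomputable def minIndex {P : Type} [Group P] (z : P) : ℕ :=
  sInf {m | ∃ H : Subgroup P, z ∉ ⁅H, H⁆ ∧ m = H.index}

/-- The maximum of `minIndex z` over the central elements `z` of order `p`. -/
noncomputable def MP (p : ℕ) (P : Type) [Group P] : ℕ :=
  sSup {m | ∃ z : P, z ∈ Subgroup.center P ∧ orderOf z = p ∧ m = minIndex z}

/-- The Heisenberg group of a field: the triples `(a, b, c)` with
`(a, b, c) (a', b', c') = (a + a', b + b', c + c' + a b')`. -/
@[ext] structure Heis (F : Type) where
  a : F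
  b : F
  c : F

section heis

variable {F : Type} [Field F]

instance : Mul (Heis F) := ⟨fun x y => ⟨x.a + y.a, x.b + y.b, x.c + y.c + x.a * y.b⟩⟩
instance : One (Heis F) := ⟨⟨0, 0, 0⟩⟩
instance : Inv (Heis F) := ⟨fun x => ⟨-x.a, -x.b, -x.c + x.a * x.b⟩⟩

theorem heis_mul (x y : Heis F) :
    x * y = ⟨x.a + y.a, x.b + y.b, x.c + y.c + x.a * y.b⟩ := rfl
theorem heis_one : (1 : Heis F) = ⟨0, 0, 0⟩ := rfl
theorem heis_inv (x : Heis F) : x⁻¹ = ⟨-x.a, -x.b, -x.c + x.a * x.b⟩ := rfl

instance : Group (Heis F) where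
  mul_assoc x y z := by
    simp only [heis_mul, Heis.mk.injEq]
    refine ⟨by ring, by ring, by ring⟩
  one_mul x := by simp [heis_mul, heis_one]
  mul_one x := by simp [heis_mul, heis_one]
  inv_mul_cancel x := by
    simp only [heis_mul, heis_inv, heis_one, Heis.mk.injEq]
    refine ⟨by ring, by ring, by ring⟩

end heis

/-! ### Auxiliary notions (not used in the final statement) -/

/-- `v` is a normalised discrete valuation with residue field (the image of) `k`. -/
structure TV {k L : Type u} [Field k] [Field L] (κ : k →+* L)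
    (v : AddValuation L (WithTop ℤ)) : Prop where
  unif : ∃ π : L, v π = 1
  alg : ∀ c : k, c ≠ 0 → v (κ c) = 0
  const : ∀ x : L, 0 ≤ v x → ∃ c : k, 1 ≤ v (x - κ c)

/-- The standing hypotheses on a totally ramified extension. -/
structure Ram {k K L : Type u} [Field k] [Field K] [Field L] [Algebra K L] (κ : k →+* K)
    (v : AddValuation L (WithTop ℤ)) : Prop where
  tv : TV ((algebraMap K L).comp κ) v
  inv : ∀ (σ : L ≃ₐ[K] L) (x : L), v (σ x) = v x
  sub : ∀ E : IntermediateField K L, ∃ vE : AddValuation E (WithTop ℤ),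
    TV ((algebraMap K E).comp κ) vE ∧ ∀ x : E, v (x : L) = Module.finrank E L • vE x

/-- The largest `i` with `v (σ x - x) ≥ v x + i` for all `x`. -/
noncomputable def s {L : Type u} [Field L] (v : AddValuation L (WithTop ℤ)) (σ : L → L) : ℕ :=
  sSup {i : ℕ | ∀ x : L, v x + ((i : ℤ) : WithTop ℤ) ≤ v (σ x - x)}

section pure

variable {G : Type u} [Group G] [Fintype G]

open scoped Classical in
/-- The sum of `s` over the coset `h J`. -/
noncomputable def cs (s : G → ℕ) (J : Subgroup G) (h : G) : ℕ :=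
  ∑ j ∈ Finset.univ.filter (fun j => j ∈ J), s (h * j)

open scoped Classical in
/-- The sum of `s` over the nontrivial elements. -/
noncomputable def S1 (s : G → ℕ) : ℕ := ∑ g ∈ Finset.univ.filter (fun g => g ≠ 1), s g

open scoped Classical in
/-- The largest value of `s` at a nontrivial element. -/
noncomputable def x0 (s : G → ℕ) : ℕ := (Finset.univ.filter (fun g => g ≠ 1)).sup s

/-- A ramification function on a group (the value at `1` is irrelevant). -/
structure RF {G : Type u} [Group G] (s : G → ℕ) : Prop where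
  pos : ∀ g, g ≠ 1 → 1 ≤ s g
  mul : ∀ g h, g ≠ 1 → h ≠ 1 → g * h ≠ 1 → min (s g) (s h) ≤ s (g * h)
  inv : ∀ g, s g⁻¹ = s g
  conj : ∀ g h, s (h * g * h⁻¹) = s g

open scoped Classical in
/-- The Herbrand function of a ramification function. -/
noncomputable def phi (s : G → ℕ) (u : ℝ) : ℝ :=
  (u + ∑ g ∈ Finset.univ.filter (fun g => g ≠ 1), min (s g : ℝ) u) / (Fintype.card G : ℝ)

/-- The conductor of a ramification function. -/
noncomputable def cond (s : G → ℕ) : ℝ := ((S1 s : ℝ) + (x0 s : ℝ)) / (Fintype.card G : ℝ)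

open scoped Classical in
/-- `s` is a ramification function with the integrality properties of Herbrand and
Hasse-Arf (for cyclic sections). -/
structure GRF (s : G → ℕ) : Prop where
  rf : RF s
  int : ∀ H J : Subgroup G, J ≤ H → (J.subgroupOf H).Normal → ∀ h ∈ H, h ∉ J →
    Nat.card J ∣ cs s J h
  cyc : ∀ H J : Subgroup G, J ≤ H → (hJ : (J.subgroupOf H).Normal) → J ≠ H →
    IsCyclic (H ⧸ J.subgroupOf H) →
    Nat.card H ∣ (∑ h ∈ Finset.univ.filter (fun h => h ∈ H ∧ h ∉ J), s h) +
      (Finset.univ.filter (fun h => h ∈ H ∧ h ∉ J)).sup (fun h => cs s J h)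

end pure

end Pool.Agent.Helper21.DN
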