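import Pool.Agent.Helper21.DN.Stmts

set_option autoImplicit false

namespace Pool.Agent.Helper21.DN

universe u

/-- twisting data from an `F`-structure -/
def ST_FQ : Prop := ∀ (p : ℕ) [Fact p.Prime] (k : Type u) [Field k] [CharP k p]
  [IsAlgClosed k] (P : Type) [Group P] [Finite P], IsPGroup p P →
  ∀ (F : Type) [Field F] [Finite F] (ι : P → F) (b c : F → P),
  (∀ x y, ι (x * y) = ι x + ι y) → Function.Surjective ι →
  (∀ u v, b (u + v) = b u * b v) → (∀ u v, c (u + v) = c u * c v) →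
  (∀ u, c u ∈ Subgroup.center P) → (∃ u, c u ≠ 1) →
  (∀ x u, x * b u * x⁻¹ * (b u)⁻¹ = c (ι x * u)) →
  ∃ (g d : ℕ) (β : Multiplicative (Fin d → ZMod p) →* P)
    (A : P → Matrix (Fin d) (Fin d) (ZMod p)) (e z : Fin d → k) (j : P → k),
    1 ≤ g ∧ Nat.card F = p ^ g ∧ TwD p g d k P β A e z j

/-- `M(P)` for groups with an abelian subgroup of index `q` -/
def ST_ABI : Prop := ∀ (p : ℕ) [Fact p.Prime] (P : Type) [Group P] [Finite P],
  IsPGroup p P → Nontrivial P → ∀ A : Subgroup P, (∀ a ∈ A, ∀ a' ∈ A, a * a' = a' * a) →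
  MP p P ∣ A.index

end Pool.Agent.Helper21.DN
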