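import Pool.Agent.Helper21.DN.All
import Pool.Agent.Helper21.DN.Stmts2
import Pool.Agent.Helper20.NP.Stmts

set_option autoImplicit false

namespace Pool.Agent.Helper21.DN

universe u

/-- The admissible pairs `R ⊲ H` of subgroups: the quotient `H / R` is abelian if `p = 2`, and
every element of order `p` of `H / R` is central in `H / R` if `p` is odd. -/
def Adm (p : ℕ) {P : Type} [Group P] (H R : Subgroup P) : Prop :=
  R ≤ H ∧ (R.subgroupOf H).Normal ∧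
    ∀ x ∈ H, (p = 2 ∨ x ^ p ∈ R) → ∀ y ∈ H, x * y * x⁻¹ * y⁻¹ ∈ R

/-- The least index of a subgroup `H` that has an admissible pair `R ⊲ H` with `z ∉ R`. -/
noncomputable def minIdx (p : ℕ) {P : Type} [Group P] (z : P) : ℕ :=
  sInf {m | ∃ H R : Subgroup P, Adm p H R ∧ z ∉ R ∧ m = H.index}

/-- The maximum of `minIdx p z` over the central elements `z` of order `p`. -/
noncomputable def BP (p : ℕ) (P : Type) [Group P] : ℕ :=
  sSup {m | ∃ z : P, z ∈ Subgroup.center P ∧ orderOf z = p ∧ m = minIdx p z}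

theorem m3_one {P : Type} [Group P] (p : ℕ) (hp : p.Prime) (z : P) (hz : orderOf z = p) :
    z ∉ (⊥ : Subgroup P) := by
  intro h
  rw [Subgroup.mem_bot] at h
  rw [h, orderOf_one] at hz
  exact hp.one_lt.ne hz

theorem m3_ne {P : Type} [Group P] (p : ℕ) (hp : p.Prime) (z : P) (hz : orderOf z = p) :
    ({m | ∃ H R : Subgroup P, Adm p H R ∧ z ∉ R ∧ m = H.index} : Set ℕ).Nonempty := by
  refine ⟨(⊥ : Subgroup P).index, ⊥, ⊥, ⟨le_rfl, ?_, ?_⟩, m3_one p hp z hz, rfl⟩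
  · rw [Subgroup.bot_subgroupOf]
    infer_instance
  · intro x hx _ y hy
    rw [Subgroup.mem_bot] at hx hy ⊢
    rw [hx, hy]
    simp

/-- `minIdx` is attained -/
theorem m3_att {P : Type} [Group P] (p : ℕ) (hp : p.Prime) (z : P) (hz : orderOf z = p) :
    ∃ H R : Subgroup P, Adm p H R ∧ z ∉ R ∧ minIdx p z = H.index :=
  Nat.sInf_mem (m3_ne p hp z hz)

theorem m3_bdd {P : Type} [Group P] [Finite P] (p : ℕ) (hp : p.Prime) :
    BddAbove {m | ∃ z : P, z ∈ Subgroup.center P ∧ orderOf z = p ∧ m = minIdx p z} := by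
  refine ⟨Nat.card P, ?_⟩
  rintro m ⟨z, _, hz, rfl⟩
  obtain ⟨H, R, _, _, h⟩ := m3_att p hp z hz
  rw [h]
  exact Nat.le_of_dvd Nat.card_pos H.index_dvd_card

theorem m3_cen {P : Type} [Group P] [Finite P] (p : ℕ) [hp : Fact p.Prime] (hP : IsPGroup p P)
    (hnt : Nontrivial P) : ∃ z : P, z ∈ Subgroup.center P ∧ orderOf z = p := by
  have h1 : Nontrivial (Subgroup.center P) := hP.center_nontrivial
  have h2 : p ∣ Nat.card (Subgroup.center P) := by
    obtain ⟨n, hn⟩ := IsPGroup.iff_card.1 (hP.to_subgroup (Subgroup.center P))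
    rw [hn]
    refine dvd_pow_self p ?_
    rintro rfl
    rw [pow_zero] at hn
    exact (Finite.one_lt_card_iff_nontrivial.2 h1).ne' hn
  obtain ⟨z, hz⟩ := exists_prime_orderOf_dvd_card' p h2
  exact ⟨z, z.2, by rw [Subgroup.orderOf_coe, hz]⟩

theorem m3_pow {P : Type} [Group P] [Finite P] (p : ℕ) [hp : Fact p.Prime] (hP : IsPGroup p P)
    (z : P) (hz : orderOf z = p) : ∃ n, minIdx p z = p ^ n := by
  obtain ⟨H, R, _, _, h⟩ := m3_att p hp.out z hz
  rw [h]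
  exact hP.index H

/-- `BP` is a power of `p`, attained -/
theorem m3_BP {P : Type} [Group P] [Finite P] (p : ℕ) [hp : Fact p.Prime] (hP : IsPGroup p P)
    (hnt : Nontrivial P) : ∃ z : P, z ∈ Subgroup.center P ∧ orderOf z = p ∧
      BP p P = minIdx p z := by
  obtain ⟨z, hz1, hz2⟩ := m3_cen p hP hnt
  have h1 : ({m | ∃ z : P, z ∈ Subgroup.center P ∧ orderOf z = p ∧ m = minIdx p z} :
      Set ℕ).Nonempty := ⟨_, z, hz1, hz2, rfl⟩
  exact Nat.sSup_mem h1 (m3_bdd p hp.out)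

theorem m3_dvd {P : Type} [Group P] [Finite P] (p : ℕ) [hp : Fact p.Prime] (hP : IsPGroup p P)
    (hnt : Nontrivial P) (z : P) (hz1 : z ∈ Subgroup.center P) (hz : orderOf z = p) :
    minIdx p z ∣ BP p P := by
  obtain ⟨z', _, hz', h⟩ := m3_BP p hP hnt
  obtain ⟨n, hn⟩ := m3_pow p hP z hz
  obtain ⟨n', hn'⟩ := m3_pow p hP z' hz'
  have h1 : minIdx p z ≤ BP p P := le_csSup (m3_bdd p hp.out) ⟨z, hz1, hz, rfl⟩
  rw [h, hn, hn'] at h1
  rw [h, hn, hn']
  exact pow_dvd_pow p ((Nat.pow_le_pow_iff_right hp.out.one_lt).1 h1)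

/-- the refined upper bound -/
theorem m3_up (hUPP : Pool.Agent.Helper20.NP.ST_UPP.{u}) (p : ℕ) [hp : Fact p.Prime] (k : Type u)
    [Field k] [CharP k p] [IsAlgClosed k] (P : Type) [Group P] [Finite P] (hP : IsPGroup p P)
    (hnt : Nontrivial P) : ∀ c ∈ condSet k P, ∃ z : P, z ∈ Subgroup.center P ∧ orderOf z = p ∧
        ∀ H R : Subgroup P, Adm p H R → z ∉ R → ∃ a : ℤ, (H.index : ℝ) * c = (a : ℝ) := by
  intro c hc
  by_cases hp2 : p = 2
  · obtain ⟨z, h2, h3, h4⟩ := ((all_MAIN.{u} p k).1 P hP hnt).2.2 c hc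
    refine ⟨z, h2, h3, ?_⟩
    rintro H R ⟨_, _, h5⟩ hz
    apply h4 H
    intro h6
    apply hz
    have h7 : (⁅H, H⁆ : Subgroup P) ≤ R := by
      rw [Subgroup.commutator_le]
      intro x hx y hy
      exact h5 x hx (Or.inl hp2) y hy
    exact h7 h6
  · obtain ⟨z, h2, h3, h4⟩ := hUPP p hp2 k P hP hnt c hc
    refine ⟨z, h2, h3, ?_⟩
    rintro H R ⟨h5, h6, h7⟩ hz
    exact h4 H R h5 h6 hz (fun x hx hxp y hy => h7 x hx (Or.inr hxp) y hy)

theorem main3 (hUPP : Pool.Agent.Helper20.NP.ST_UPP.{u}) (hFQ : ST_FQ.{u}) (p : ℕ)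
    [hp : Fact p.Prime] (k : Type u)
    [Field k] [CharP k p] [IsAlgClosed k] (P : Type) [Group P] [Finite P] (hP : IsPGroup p P)
    (hnt : Nontrivial P) :
    (0 < NP k P ∧ NP k P ∣ BP p P ∧
      ∀ c ∈ condSet k P, ∃ z : P, z ∈ Subgroup.center P ∧ orderOf z = p ∧
        ∀ H R : Subgroup P, Adm p H R → z ∉ R → ∃ a : ℤ, (H.index : ℝ) * c = (a : ℝ)) ∧
    (p ≠ 2 → ∀ (F : Type) [Field F] [Finite F] (ι : P → F) (b c : F → P),
      (∀ x y, ι (x * y) = ι x + ι y) → Function.Surjective ι →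
      (∀ u v, b (u + v) = b u * b v) → (∀ u v, c (u + v) = c u * c v) →
      (∀ u, c u ∈ Subgroup.center P) → (∃ u, c u ≠ 1) →
      (∀ x u, x * b u * x⁻¹ * (b u)⁻¹ = c (ι x * u)) →
      Nat.card F ∣ NP k P ∧
      ∀ A : Subgroup P, (∀ x ∈ A, x ^ p = 1 → ∀ y ∈ A, x * y = y * x) → A.index = Nat.card F →
      NP k P = Nat.card F ∧ BP p P = Nat.card F) := by
  have hup := m3_up hUPP p k P hP hnt
  have hpos : 0 < BP p P := by
    obtain ⟨z, _, hz, h⟩ := m3_BP p hP hnt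
    obtain ⟨n, hn⟩ := m3_pow p hP z hz
    rw [h, hn]
    exact pow_pos hp.out.pos n
  have h1 := all_NPU k P (BP p P) hpos (by
    intro c hc
    obtain ⟨z, hz1, hz2, h⟩ := hup c hc
    obtain ⟨H, R, hHR, hzR, hi⟩ := m3_att p hp.out z hz2
    obtain ⟨a, ha⟩ := h H R hHR hzR
    obtain ⟨m, hm⟩ := m3_dvd p hP hnt z hz1 hz2
    refine ⟨m * a, ?_⟩
    rw [hm, hi]
    push_cast
    rw [← ha]
    ring)
  refine ⟨⟨h1.1, h1.2, hup⟩, ?_⟩
  intro hp2 F _ _ ι b c h2 h3 h4 h5 h6 h7 h8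
  obtain ⟨g, d, β, A', e, z, j, hg, hcard, hT⟩ := hFQ p k P hP F ι b c h2 h3 h4 h5 h6 h7 h8
  have h9 : p ^ g ∣ NP k P :=
    main_low all_UB all_NPL all_FINT p hp2 k P hP hnt g d hg β A' e z j hT
  rw [← hcard] at h9
  refine ⟨h9, ?_⟩
  intro A hA hAi
  have h10 : BP p P ∣ Nat.card F := by
    obtain ⟨z, hz1, hz2, h⟩ := m3_BP p hP hnt
    obtain ⟨n, hn⟩ := m3_pow p hP z hz2
    have h11 : minIdx p z ≤ A.index := by
      apply Nat.sInf_le
      refine ⟨A, ⊥, ⟨bot_le, ?_, ?_⟩, m3_one p hp.out z hz2, rfl⟩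
      · rw [Subgroup.bot_subgroupOf]
        infer_instance
      · intro x hx hxp y hy
        rcases hxp with hxp | hxp
        · exact absurd hxp hp2
        · rw [Subgroup.mem_bot] at hxp ⊢
          rw [hA x hx hxp y hy]
          group
    rw [hAi, hcard, hn] at h11
    rw [h, hn, hcard]
    exact pow_dvd_pow p ((Nat.pow_le_pow_iff_right hp.out.one_lt).1 h11)
  have h11 : NP k P = Nat.card F := Nat.dvd_antisymm (h1.2.trans h10) h9
  exact ⟨h11, Nat.dvd_antisymm h10 (h11 ▸ h1.2)⟩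

end Pool.Agent.Helper21.DN
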