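import Pool.Agent.Helper21.DN.All
import Pool.Agent.Helper11.NP.GB
import Pool.Agent.Helper11.NP.PCQ
import Pool.Agent.Helper11.NP.QS
import Pool.Agent.Helper11.NP.RQ
import Pool.Agent.Helper15.NP.TJ
import Pool.Agent.Helper2.NP.PG
import Pool.Agent.Helper24.NP.DIFT
import Pool.Agent.Helper28.NP.UBR
import Pool.Agent.Helper35.NP.APX
import Pool.Agent.Helper37.NP.IND
import Pool.Agent.Helper38.NP.PJ
import Pool.Agent.Helper38.NP.RGF
import Pool.Agent.Helper38.NP.RT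
import Pool.Agent.Helper39.NP.AS1
import Pool.Agent.Helper39.NP.DC
import Pool.Agent.Helper39.NP.TPP
import Pool.Agent.Helper41.NP.PC
import Pool.Agent.Helper41.NP.RS
import Pool.Agent.Helper52.NP.UPP
import Pool.Agent.Helper61.NP.DEXT
import Pool.Agent.Helper61.NP.DIF0
import Pool.Agent.Helper61.NP.DIFR
import Pool.Agent.Helper61.NP.RED
import Pool.Agent.Helper61.NP.VK
import Pool.Agent.Helper67.NP.PWB
import Pool.Agent.Helper7.NP.POW
import Pool.Agent.Helper77.NP.GEN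
import Pool.Agent.Helper78.NP.PWA
import Pool.Agent.Helper80.NP.DIFE
import Pool.Agent.Helper89.NP.DK
import Pool.Agent.Helper94.NP.BAS
import Pool.Agent.Helper94.NP.TG

set_option autoImplicit false

namespace Pool.Agent.Helper21.DN

universe u

open Pool.Agent.Helper20.NP in
/-- the upper bound, for odd `p` -/
theorem np_UPP : Pool.Agent.Helper20.NP.ST_UPP.{u} := by
  have hRGF : Pool.Agent.Helper20.NP.ST_RGF.{u} := st_RGF (Pool.Agent.Helper21.DN.all_GRF.{u})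
  have hDC : Pool.Agent.Helper20.NP.ST_DC.{u} := st_DC 
  have hBAS : Pool.Agent.Helper20.NP.ST_BAS.{u} := st_BAS 
  have hDIFT : Pool.Agent.Helper20.NP.ST_DIFT.{u} := st_DIFT hDC hBAS (Pool.Agent.Helper21.DN.all_S1.{u})
  have hDIFE : Pool.Agent.Helper20.NP.ST_DIFE.{u} := st_DIFE hDC hDIFT
  have hRS : Pool.Agent.Helper20.NP.ST_RS.{u} := st_RS hDIFE (Pool.Agent.Helper21.DN.all_BCH.{u})
  have hDIFR : Pool.Agent.Helper20.NP.ST_DIFR.{u} := st_DIFR 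
  have hRQ : Pool.Agent.Helper20.NP.ST_RQ.{u} := st_RQ (Pool.Agent.Helper21.DN.all_P3.{u}) hDIFR
  have hQS : Pool.Agent.Helper20.NP.ST_QS.{u} := st_QS (Pool.Agent.Helper21.DN.all_COS.{u})
  have hRED : Pool.Agent.Helper20.NP.ST_RED.{u} := st_RED 
  have hVK : Pool.Agent.Helper20.NP.ST_VK.{u} := st_VK 
  have hAS1 : Pool.Agent.Helper20.NP.ST_AS1.{u} := st_AS1 hRED hVK (Pool.Agent.Helper21.DN.all_S1.{u})
  have hAPX : Pool.Agent.Helper20.NP.ST_APX.{u} := st_APX hBAS (Pool.Agent.Helper21.DN.all_S1.{u}) (Pool.Agent.Helper21.DN.all_RFV.{u}) (Pool.Agent.Helper21.DN.all_BCH.{u}) (Pool.Agent.Helper21.DN.all_P3.{u})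
  have hTPP : Pool.Agent.Helper20.NP.ST_TPP.{u} := st_TPP hDIFT hAPX hVK (Pool.Agent.Helper21.DN.all_S1.{u})
  have hTG : Pool.Agent.Helper20.NP.ST_TG.{u} := st_TG hAS1 hDIFR hTPP (Pool.Agent.Helper21.DN.all_BCH.{u}) (Pool.Agent.Helper21.DN.all_P3.{u}) (Pool.Agent.Helper21.DN.all_RFV.{u})
  have hRT : Pool.Agent.Helper20.NP.ST_RT.{u} := st_RT hTG
  have hTJ : Pool.Agent.Helper20.NP.ST_TJ.{u} := st_TJ hRGF hRQ hRT hQS
  have hGB : Pool.Agent.Helper20.NP.ST_GB.{u} := st_GB 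
  have hPWA : Pool.Agent.Helper20.NP.ST_PWA.{u} := st_PWA 
  have hPWB : Pool.Agent.Helper20.NP.ST_PWB.{u} := st_PWB hRED (Pool.Agent.Helper21.DN.all_S1.{u})
  have hGEN : Pool.Agent.Helper20.NP.ST_GEN.{u} := st_GEN hAS1 (Pool.Agent.Helper21.DN.all_HBF.{u}) (Pool.Agent.Helper21.DN.all_PHM.{u}) (Pool.Agent.Helper21.DN.all_RFV.{u})
  have hPOW : Pool.Agent.Helper20.NP.ST_POW.{u} := st_POW hPWA hPWB hGEN hDIFR hDIFT (Pool.Agent.Helper21.DN.all_S1.{u})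
  have hPG : Pool.Agent.Helper20.NP.ST_PG.{u} := st_PG hAS1 hDIFR hGB hPOW (Pool.Agent.Helper21.DN.all_BCH.{u}) (Pool.Agent.Helper21.DN.all_P3.{u})
  have hRP : Pool.Agent.Helper20.NP.ST_RP.{u} := st_RP hPG
  have hPJ : Pool.Agent.Helper20.NP.ST_PJ.{u} := st_PJ hRGF hRQ hRP hQS (Pool.Agent.Helper21.DN.all_COS.{u}) (Pool.Agent.Helper21.DN.all_PHM.{u})
  have hPCQ : Pool.Agent.Helper20.NP.ST_PCQ.{u} := st_PCQ 
  have hIND : Pool.Agent.Helper20.NP.ST_IND.{u} := st_IND hRGF hRS hRQ hPJ hPCQ (Pool.Agent.Helper21.DN.all_CENT.{u}) (Pool.Agent.Helper21.DN.all_COS.{u})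
  have hPC : Pool.Agent.Helper20.NP.ST_PC.{u} := st_PC hRGF hTJ hIND (Pool.Agent.Helper21.DN.all_CENT.{u})
  have hUBR : Pool.Agent.Helper20.NP.ST_UBR.{u} := st_UBR hRGF hRS hRQ hQS hPC (Pool.Agent.Helper21.DN.all_CENT.{u}) (Pool.Agent.Helper21.DN.all_OUT.{u})
  have hDEXT : Pool.Agent.Helper20.NP.ST_DEXT.{u} := st_DEXT 
  have hDK : Pool.Agent.Helper20.NP.ST_DK.{u} := st_DK 
  have hDIF0 : Pool.Agent.Helper20.NP.ST_DIF0.{u} := st_DIF0 hDEXT hDK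
  have hUPP : Pool.Agent.Helper20.NP.ST_UPP.{u} := st_UPP hUBR hDIF0 (Pool.Agent.Helper21.DN.all_RAM.{u}) (Pool.Agent.Helper21.DN.all_COND.{u})
  exact hUPP

end Pool.Agent.Helper21.DN
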